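import Pool.Agent.Helper28.Mrr2.Val

/-!
# The Mills-Robbins-Rumsey determinant

`det_{0 ≤ i, j < m} C(N + 1 + i + j, 2 i + 1 - j) = ∏_{J < m} rr N (J + 1)`.
-/

set_option autoImplicit false

namespace Pool.Agent.Helper28.Mrr2

open Finset Matrix

/-- The entries `C(N + 1 + i + j, 2 i + 1 - j)`. -/
noncomputable def tt (N i j : ℕ) : ℝ := bN N (i + 1) j

lemma tt_eq (N i j : ℕ) : tt N i j =
    if j ≤ 2 * i + 1 then ((N + 1 + i + j).choose (2 * i + 1 - j) : ℝ) else 0 := by
  unfold tt bN
  by_cases h : j ≤ 2 * i + 1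
  · rw [if_pos h, if_pos (by omega)]
    congr 2 ; omega
  · rw [if_neg h, if_neg (by omega)]

/-- The shifted Mills-Robbins-Rumsey matrix. -/
noncomputable def tmat (N m : ℕ) : Matrix (Fin m) (Fin m) ℝ := Matrix.of fun i j => tt N i j

/-- The entries of the unipotent matrix. -/
noncomputable def ue (N k J : ℕ) : ℝ := gv N k (J + 1 : ℝ) / gv N J (J + 1 : ℝ)

lemma ue_diag (N J : ℕ) : ue N J J = 1 := div_self (gv_top_ne N J)

lemma ue_lower (N i J : ℕ) (h : J < i) : ue N i J = 0 := by
  unfold ue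
  rw [gv_eq_zero N J i (by omega), zero_div]

lemma sum_trunc (f : ℕ → ℝ) (a b c : ℕ) (h : ∀ k, c ≤ k → f k = 0) (ha : c ≤ a) (hb : c ≤ b) :
    ∑ k ∈ range a, f k = ∑ k ∈ range b, f k := by
  have key : ∀ a, c ≤ a → ∑ k ∈ range a, f k = ∑ k ∈ range c, f k := by
    intro a ha
    refine (sum_subset (range_mono ha) fun k _ hk => h k ?_).symm
    rw [mem_range] at hk
    omega
  rw [key a ha, key b hb]

lemma prod_entry (N m l J : ℕ) (hJ : J < m) (hl : l ≤ J) :
    ∑ k ∈ range m, tt N l k * ue N k J = if l = J then rr N (J + 1) else 0 := by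
  unfold tt ue
  have e1 : ∑ k ∈ range m, bN N (l + 1) k * (gv N k (J + 1 : ℝ) / gv N J (J + 1 : ℝ)) =
      (∑ k ∈ range m, bN N (l + 1) k * gv N k (J + 1 : ℝ)) / gv N J (J + 1 : ℝ) := by
    rw [sum_div]
    exact sum_congr rfl fun k _ => (mul_div_assoc _ _ _).symm
  rw [e1]
  have hz : ∀ k, min (2 * (l + 1)) (J + 1) ≤ k → bN N (l + 1) k * gv N k (J + 1 : ℝ) = 0 := by
    intro k hk
    rcases le_or_gt (J + 1) k with h | h
    · rw [gv_eq_zero N J k (by omega), mul_zero]
    · unfold bN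
      rw [if_neg (by omega), zero_mul]
  split_ifs with h
  · subst h
    rw [sum_trunc _ m (2 * l + 1) _ hz (by omega) (by omega), sum_eq, last_eq,
      mul_div_assoc, div_self (gv_top_ne N l), mul_one]
  · rw [sum_trunc _ m (2 * (l + 1)) _ hz (by omega) (by omega), sum_lt N J (l + 1) (by omega),
      zero_div]

/-- **The Mills-Robbins-Rumsey determinant.** -/
theorem det_tmat (N m : ℕ) : (tmat N m).det = ∏ J ∈ range m, rr N (J + 1) := by
  set U : Matrix (Fin m) (Fin m) ℝ := Matrix.of fun i j => ue N i j with hU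
  have hUt : U.BlockTriangular id := fun i j hij => ue_lower N i j hij
  have hUdet : U.det = 1 := by
    rw [Matrix.det_of_isUpperTriangular hUt]
    exact prod_eq_one fun i _ => ue_diag N i
  have hent : ∀ i j : Fin m, i ≤ j → (tmat N m * U) i j =
      if (i : ℕ) = j then rr N (j + 1) else 0 := by
    intro i j hij
    rw [Matrix.mul_apply, ← prod_entry N m i j j.2 hij, ← Fin.sum_univ_eq_sum_range]
    rfl
  have hLt : (tmat N m * U).BlockTriangular OrderDual.toDual := by
    intro i j hij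
    have hij' : i < j := hij
    rw [hent i j hij'.le, if_neg]
    intro h
    exact hij'.ne (Fin.ext h)
  have h1 : (tmat N m * U).det = ∏ J ∈ range m, rr N (J + 1) := by
    rw [Matrix.det_of_isLowerTriangular _ hLt, ← Fin.prod_univ_eq_prod_range]
    refine prod_congr rfl fun i _ => ?_
    rw [hent i i le_rfl, if_pos rfl]
  rw [Matrix.det_mul, hUdet, mul_one] at h1
  exact h1

lemma rr_pos (N j : ℕ) : 0 < rr N j := by
  cases j with
  | zero => exact one_pos
  | succ j =>
    unfold rr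
    refine mul_pos (by norm_num) (prod_pos fun s _ => ?_)
    have h1 : (0 : ℝ) < (N : ℝ) + j + s + 1 := by positivity
    have h2 : (0 : ℝ) < 2 * (N : ℝ) + 4 * j + 2 * s + 3 := by positivity
    have h3 : (0 : ℝ) < ((j : ℝ) + s + 1) * (2 * (N : ℝ) + 3 * j + s + 3) := by positivity
    positivity

end Pool.Agent.Helper28.Mrr2
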