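import Pool.Agent.Helper28.Mrr2.Det

/-!
# The two-variable generating function of the shifted Mills-Robbins-Rumsey matrix
-/

set_option autoImplicit false

namespace Pool.Agent.Helper28.Mrr2

open Finset

lemma tt_rec (N i j : ℕ) : tt N (i + 2) (j + 2) =
    3 * tt N (i + 1) (j + 1) + tt N i (j + 1) + tt N (i + 1) j := by
  simp only [tt_eq]
  rcases le_or_gt j (2 * i) with h | h
  · obtain ⟨k, hk⟩ : ∃ k, 2 * i = j + k := ⟨2 * i - j, by omega⟩
    rw [if_pos (by omega), if_pos (by omega), if_pos (by omega), if_pos (by omega)]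
    rw [show N + 1 + (i + 2) + (j + 2) = (N + i + j + 2) + 1 + 1 + 1 by ring,
      show 2 * (i + 2) + 1 - (j + 2) = k + 1 + 1 + 1 by omega,
      show N + 1 + (i + 1) + (j + 1) = (N + i + j + 2) + 1 by ring,
      show 2 * (i + 1) + 1 - (j + 1) = k + 1 + 1 by omega,
      show N + 1 + i + (j + 1) = N + i + j + 2 by ring,
      show 2 * i + 1 - (j + 1) = k by omega,
      show N + 1 + (i + 1) + j = N + i + j + 2 by ring,
      show 2 * (i + 1) + 1 - j = k + 1 + 1 + 1 by omega]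
    simp only [Nat.choose_succ_succ' _ _]
    push_cast
    ring
  · rcases (show j = 2 * i + 1 ∨ j = 2 * i + 2 ∨ j = 2 * i + 3 ∨ 2 * i + 4 ≤ j by omega) with
      rfl | rfl | rfl | h4
    · rw [if_pos (by omega), if_pos (by omega), if_neg (by omega), if_pos (by omega)]
      rw [show N + 1 + (i + 2) + (2 * i + 1 + 2) = (N + 3 * i + 3) + 1 + 1 + 1 by ring,
        show 2 * (i + 2) + 1 - (2 * i + 1 + 2) = 1 + 1 by omega,
        show N + 1 + (i + 1) + (2 * i + 1 + 1) = (N + 3 * i + 3) + 1 by ring,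
        show 2 * (i + 1) + 1 - (2 * i + 1 + 1) = 1 by omega,
        show N + 1 + (i + 1) + (2 * i + 1) = N + 3 * i + 3 by ring,
        show 2 * (i + 1) + 1 - (2 * i + 1) = 1 + 1 by omega]
      simp only [Nat.choose_succ_succ' _ 1, Nat.choose_one_right]
      push_cast
      ring
    · rw [if_pos (by omega), if_pos (by omega), if_neg (by omega), if_pos (by omega)]
      rw [show 2 * (i + 2) + 1 - (2 * i + 2 + 2) = 1 by omega,
        show 2 * (i + 1) + 1 - (2 * i + 2 + 1) = 0 by omega,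
        show 2 * (i + 1) + 1 - (2 * i + 2) = 1 by omega]
      simp only [Nat.choose_one_right, Nat.choose_zero_right]
      push_cast
      ring
    · rw [if_pos (by omega), if_neg (by omega), if_neg (by omega), if_pos (by omega)]
      rw [show 2 * (i + 2) + 1 - (2 * i + 3 + 2) = 0 by omega,
        show 2 * (i + 1) + 1 - (2 * i + 3) = 0 by omega]
      simp only [Nat.choose_zero_right]
      push_cast
      ring
    · rw [if_neg (by omega), if_neg (by omega), if_neg (by omega), if_neg (by omega)]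
      ring

lemma tt_zero (N j : ℕ) : tt N 0 (j + 2) = 0 := by
  rw [tt_eq, if_neg (by omega)]

lemma tt_one (N j : ℕ) : tt N 1 (j + 2) = 3 * tt N 0 (j + 1) + tt N 0 j := by
  simp only [tt_eq]
  rcases (show j = 0 ∨ j = 1 ∨ 2 ≤ j by omega) with rfl | rfl | h
  · norm_num
    ring
  · norm_num
  · rw [if_neg (by omega), if_neg (by omega), if_neg (by omega)]
    ring

lemma tt_nonneg (N i j : ℕ) : 0 ≤ tt N i j := by
  rw [tt_eq]
  split_ifs
  · exact Nat.cast_nonneg _
  · exact le_rfl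

lemma tt_le (N i j : ℕ) : tt N i j ≤ 2 ^ (N + 1) * 2 ^ i * 2 ^ j := by
  rw [tt_eq]
  split_ifs
  · have : ((N + 1 + i + j).choose (2 * i + 1 - j) : ℝ) ≤
        2 ^ (N + 1 + i + j) := by exact_mod_cast Nat.choose_le_two_pow _ _
    refine this.trans (le_of_eq ?_)
    rw [← pow_add, ← pow_add]
  · positivity

lemma summable_tt (N : ℕ) :
    Summable fun p : ℕ × ℕ => |tt N p.1 p.2| * (1 / 8 : ℝ) ^ p.1 * (1 / 8 : ℝ) ^ p.2 := by
  have h1 : Summable fun p : ℕ × ℕ => (2 : ℝ) ^ (N + 1) * ((1 / 4 : ℝ) ^ p.1 * (1 / 4 : ℝ) ^ p.2) := by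
    refine Summable.mul_left _ ?_
    exact (summable_geometric_of_lt_one (by norm_num) (by norm_num)).mul_of_nonneg
      (summable_geometric_of_lt_one (by norm_num) (by norm_num))
      (fun _ => by positivity) (fun _ => by positivity)
  refine Summable.of_nonneg_of_le (fun p => by positivity) (fun p => ?_) h1
  rw [abs_of_nonneg (tt_nonneg _ _ _)]
  calc tt N p.1 p.2 * (1 / 8 : ℝ) ^ p.1 * (1 / 8 : ℝ) ^ p.2
      ≤ (2 ^ (N + 1) * 2 ^ p.1 * 2 ^ p.2) * (1 / 8 : ℝ) ^ p.1 * (1 / 8 : ℝ) ^ p.2 := by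
        have := tt_le N p.1 p.2
        gcongr
    _ = _ := by
        rw [show (1 / 4 : ℝ) = 2 * (1 / 8) by norm_num, mul_pow, mul_pow]
        ring

lemma summable_txy (N : ℕ) {x y : ℝ} (hx : |x| ≤ 1 / 8) (hy : |y| ≤ 1 / 8) :
    Summable fun p : ℕ × ℕ => tt N p.1 p.2 * x ^ p.1 * y ^ p.2 := by
  refine Summable.of_norm_bounded (summable_tt N) fun p => ?_
  rw [Real.norm_eq_abs, abs_mul, abs_mul, abs_pow, abs_pow]
  gcongr

/-- The columns. -/
noncomputable def phi (N j : ℕ) (x : ℝ) : ℝ := ∑' i, tt N i j * x ^ i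

lemma summable_col (N j : ℕ) {x : ℝ} (hx : |x| ≤ 1 / 8) :
    Summable fun i : ℕ => tt N i j * x ^ i := by
  have h1 : Summable fun i : ℕ => (2 : ℝ) ^ (N + 1) * 2 ^ j * (1 / 4 : ℝ) ^ i :=
    Summable.mul_left _ (summable_geometric_of_lt_one (by norm_num) (by norm_num))
  refine Summable.of_norm_bounded h1 fun i => ?_
  rw [Real.norm_eq_abs, abs_mul, abs_pow, abs_of_nonneg (tt_nonneg _ _ _)]
  calc tt N i j * |x| ^ i ≤ (2 ^ (N + 1) * 2 ^ i * 2 ^ j) * (1 / 8 : ℝ) ^ i := by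
        have := tt_le N i j
        gcongr
    _ = _ := by
        rw [show (1 / 4 : ℝ) = 2 * (1 / 8) by norm_num, mul_pow]
        ring

lemma phi_rec (N j : ℕ) {x : ℝ} (hx : |x| ≤ 1 / 8) :
    phi N (j + 2) x = x * (3 + x) * phi N (j + 1) x + x * phi N j x := by
  have s0 := summable_col N j hx
  have s1 := summable_col N (j + 1) hx
  have s2 := summable_col N (j + 2) hx
  have e2 : phi N (j + 2) x = tt N 1 (j + 2) * x + ∑' i, tt N (i + 2) (j + 2) * x ^ (i + 2) := by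
    unfold phi
    rw [s2.tsum_eq_zero_add, ((summable_nat_add_iff 1).2 s2).tsum_eq_zero_add, tt_zero]
    simp only [zero_mul, zero_add, pow_one]
  have e1 : phi N (j + 1) x = tt N 0 (j + 1) + ∑' i, tt N (i + 1) (j + 1) * x ^ (i + 1) := by
    unfold phi
    rw [s1.tsum_eq_zero_add]
    simp only [pow_zero, mul_one]
  have e0 : phi N j x = tt N 0 j + ∑' i, tt N (i + 1) j * x ^ (i + 1) := by
    unfold phi
    rw [s0.tsum_eq_zero_add]
    simp only [pow_zero, mul_one]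
  have s1' := (summable_nat_add_iff 1).2 s1
  have s0' := (summable_nat_add_iff 1).2 s0
  have e3 : ∑' i, tt N (i + 2) (j + 2) * x ^ (i + 2) =
      3 * x * ∑' i, tt N (i + 1) (j + 1) * x ^ (i + 1) + x ^ 2 * phi N (j + 1) x +
        x * ∑' i, tt N (i + 1) j * x ^ (i + 1) := by
    unfold phi
    rw [← tsum_mul_left, ← tsum_mul_left, ← tsum_mul_left,
      ← (s1'.mul_left (3 * x)).tsum_add (s1.mul_left (x ^ 2)),
      ← ((s1'.mul_left (3 * x)).add (s1.mul_left (x ^ 2))).tsum_add (s0'.mul_left x)]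
    refine tsum_congr fun i => ?_
    rw [tt_rec]
    ring
  rw [e2, e3, tt_one]
  linear_combination (-3 * x) * e1 - x * e0

/-- The sum as an iterated sum. -/
lemma tsum_eq (N : ℕ) {x y : ℝ} (hx : |x| ≤ 1 / 8) (hy : |y| ≤ 1 / 8) :
    ∑' p : ℕ × ℕ, tt N p.1 p.2 * x ^ p.1 * y ^ p.2 = ∑' j, phi N j x * y ^ j := by
  have h := summable_txy N hx hy
  rw [← (Equiv.prodComm ℕ ℕ).tsum_eq]
  have h2 : Summable fun p : ℕ × ℕ => tt N p.2 p.1 * x ^ p.2 * y ^ p.1 :=
    (Equiv.prodComm ℕ ℕ).summable_iff.2 h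
  have h3 := h2.tsum_prod
  refine Eq.trans ?_ (h3.trans ?_)
  · rfl
  · refine tsum_congr fun j => ?_
    unfold phi
    rw [← tsum_mul_right]

lemma summable_phi (N : ℕ) {x y : ℝ} (hx : |x| ≤ 1 / 8) (hy : |y| ≤ 1 / 8) :
    Summable fun j => phi N j x * y ^ j := by
  have h := summable_txy N hx hy
  have h2 : Summable fun p : ℕ × ℕ => tt N p.2 p.1 * x ^ p.2 * y ^ p.1 :=
    (Equiv.prodComm ℕ ℕ).summable_iff.2 h
  have h3 := h2.prod
  refine h3.congr fun j => ?_
  unfold phi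
  rw [← tsum_mul_right]

/-- The generating function. -/
theorem gen_fun (N : ℕ) {x y : ℝ} (hx : |x| ≤ 1 / 8) (hy : |y| ≤ 1 / 8) :
    (1 - 3 * x * y - x ^ 2 * y - x * y ^ 2) *
      ∑' p : ℕ × ℕ, tt N p.1 p.2 * x ^ p.1 * y ^ p.2 =
      phi N 0 x + y * (phi N 1 x - x * (3 + x) * phi N 0 x) := by
  rw [tsum_eq N hx hy]
  have s := summable_phi N hx hy
  have s1 := (summable_nat_add_iff 1).2 s
  have e1 := s.tsum_eq_zero_add
  have e2 := s1.tsum_eq_zero_add
  have e3 : ∑' j, phi N (j + 1 + 1) x * y ^ (j + 1 + 1) =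
      x * (3 + x) * y * ∑' j, phi N (j + 1) x * y ^ (j + 1) +
        x * y ^ 2 * ∑' j, phi N j x * y ^ j := by
    rw [← tsum_mul_left, ← tsum_mul_left, ← (s1.mul_left _).tsum_add (s.mul_left _)]
    refine tsum_congr fun j => ?_
    rw [show j + 1 + 1 = j + 2 by ring, phi_rec N j hx]
    ring
  simp only [pow_zero, mul_one, zero_add, pow_one] at e1 e2
  rw [e3] at e2
  linear_combination (1 - x * (3 + x) * y) * e1 + e2

/-- Column zero, three-term relation in `N`. -/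
lemma tt_N (N i : ℕ) : tt (N + 2) (i + 1) 0 = 2 * tt (N + 1) (i + 1) 0 + tt (N + 1) i 0 -
    tt N (i + 1) 0 := by
  simp only [tt_eq]
  rw [if_pos (by omega), if_pos (by omega), if_pos (by omega), if_pos (by omega)]
  rw [show N + 2 + 1 + (i + 1) + 0 = (N + i + 2) + 1 + 1 by ring,
    show 2 * (i + 1) + 1 - 0 = 2 * i + 1 + 1 + 1 by omega,
    show N + 1 + 1 + (i + 1) + 0 = (N + i + 2) + 1 by ring,
    show N + 1 + 1 + i + 0 = N + i + 2 by ring,
    show 2 * i + 1 - 0 = 2 * i + 1 by omega,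
    show N + 1 + (i + 1) + 0 = N + i + 2 by ring]
  simp only [Nat.choose_succ_succ' _ _]
  push_cast
  ring

lemma phi_N (N : ℕ) {x : ℝ} (hx : |x| ≤ 1 / 8) :
    phi (N + 2) 0 x = (2 + x) * phi (N + 1) 0 x - phi N 0 x := by
  have s0 := summable_col N 0 hx
  have s1 := summable_col (N + 1) 0 hx
  have s2 := summable_col (N + 2) 0 hx
  have s0' := (summable_nat_add_iff 1).2 s0
  have s1' := (summable_nat_add_iff 1).2 s1
  have e0 := s0.tsum_eq_zero_add
  have e1 := s1.tsum_eq_zero_add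
  have e2 := s2.tsum_eq_zero_add
  have e3 : ∑' i, tt (N + 2) (i + 1) 0 * x ^ (i + 1) =
      2 * ∑' i, tt (N + 1) (i + 1) 0 * x ^ (i + 1) + x * ∑' i, tt (N + 1) i 0 * x ^ i -
        ∑' i, tt N (i + 1) 0 * x ^ (i + 1) := by
    rw [← tsum_mul_left, ← tsum_mul_left, ← (s1'.mul_left 2).tsum_add (s1.mul_left x),
      ← ((s1'.mul_left 2).add (s1.mul_left x)).tsum_sub s0']
    refine tsum_congr fun i => ?_
    rw [tt_N]
    ring
  have h0 : ∀ ν : ℕ, tt ν 0 0 = ν + 1 := by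
    intro ν
    rw [tt_eq]
    norm_num
  unfold phi
  rw [e3] at e2
  simp only [pow_zero, mul_one, h0] at e0 e1 e2
  push_cast at e0 e1 e2
  linear_combination e2 - 2 * e1 + e0

/-- The polynomials of the second kind, `U_n(2 + x)`. -/
noncomputable def UU (x : ℝ) : ℕ → ℝ
  | 0 => 1
  | 1 => 2 + x
  | n + 2 => (2 + x) * UU x (n + 1) - UU x n

lemma phi_zero_zero {x : ℝ} : phi 0 0 x = 1 := by
  unfold phi
  rw [tsum_eq_sum (s := range 1)]
  · rw [sum_range_one]
    rw [tt_eq]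
    norm_num
  · intro i hi
    rw [mem_range] at hi
    rw [tt_eq, if_pos (by omega), Nat.choose_eq_zero_of_lt (by omega)]
    norm_num

lemma phi_one_zero {x : ℝ} : phi 1 0 x = 2 + x := by
  unfold phi
  rw [tsum_eq_sum (s := range 2)]
  · rw [sum_range_succ, sum_range_one]
    rw [tt_eq, tt_eq]
    norm_num
  · intro i hi
    rw [mem_range] at hi
    rw [tt_eq, if_pos (by omega), Nat.choose_eq_zero_of_lt (by omega)]
    norm_num

lemma phi_eq_UU {x : ℝ} (hx : |x| ≤ 1 / 8) : ∀ N : ℕ, phi N 0 x = UU x N := by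
  intro N
  induction N using Nat.strong_induction_on with
  | _ N ih =>
    match N, ih with
    | 0, _ => exact phi_zero_zero
    | 1, _ => exact phi_one_zero
    | N + 2, ih =>
      rw [phi_N N hx, ih N (by omega), ih (N + 1) (by omega)]
      rfl

/-- Column one. -/
lemma tt_col_one (N i : ℕ) : tt (N + 1) (i + 2) 1 = 3 * tt (N + 1) (i + 1) 0 + tt (N + 1) i 0 +
    (tt (N + 1) (i + 2) 0 - tt N (i + 2) 0 - tt N (i + 1) 0) := by
  simp only [tt_eq]
  rw [if_pos (by omega), if_pos (by omega), if_pos (by omega), if_pos (by omega),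
    if_pos (by omega), if_pos (by omega)]
  rw [show N + 1 + 1 + (i + 2) + 1 = (N + i + 2) + 1 + 1 + 1 by ring,
    show 2 * (i + 2) + 1 - 1 = 2 * i + 1 + 1 + 1 + 1 by omega,
    show N + 1 + 1 + (i + 1) + 0 = (N + i + 2) + 1 by ring,
    show 2 * (i + 1) + 1 - 0 = 2 * i + 1 + 1 + 1 by omega,
    show N + 1 + 1 + i + 0 = N + i + 2 by ring,
    show 2 * i + 1 - 0 = 2 * i + 1 by omega,
    show N + 1 + 1 + (i + 2) + 0 = (N + i + 2) + 1 + 1 by ring,
    show 2 * (i + 2) + 1 - 0 = 2 * i + 1 + 1 + 1 + 1 + 1 by omega,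
    show N + 1 + (i + 2) + 0 = (N + i + 2) + 1 by ring,
    show N + 1 + (i + 1) + 0 = N + i + 2 by ring]
  simp only [Nat.choose_succ_succ' _ _]
  push_cast
  ring

lemma phi_col_one (N : ℕ) {x : ℝ} (hx : |x| ≤ 1 / 8) :
    phi (N + 1) 1 x - x * (3 + x) * phi (N + 1) 0 x =
      phi (N + 1) 0 x - (1 + x) * phi N 0 x := by
  have s0 := summable_col N 0 hx
  have s1 := summable_col (N + 1) 0 hx
  have s2 := summable_col (N + 1) 1 hx
  have s0' := (summable_nat_add_iff 1).2 s0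
  have s1' := (summable_nat_add_iff 1).2 s1
  have s2' := (summable_nat_add_iff 1).2 s2
  have s0'' := (summable_nat_add_iff 2).2 s0
  have s1'' := (summable_nat_add_iff 2).2 s1
  have e0 := s0.tsum_eq_zero_add
  have e1 := s1.tsum_eq_zero_add
  have e2 := s2.tsum_eq_zero_add
  have e0' := s0'.tsum_eq_zero_add
  have e1' := s1'.tsum_eq_zero_add
  have e2' := s2'.tsum_eq_zero_add
  have e3 : ∑' i, tt (N + 1) (i + 2) 1 * x ^ (i + 2) =
      3 * x * ∑' i, tt (N + 1) (i + 1) 0 * x ^ (i + 1) + x ^ 2 * ∑' i, tt (N + 1) i 0 * x ^ i +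
        (∑' i, tt (N + 1) (i + 2) 0 * x ^ (i + 2) - ∑' i, tt N (i + 2) 0 * x ^ (i + 2) -
          x * ∑' i, tt N (i + 1) 0 * x ^ (i + 1)) := by
    rw [← tsum_mul_left, ← tsum_mul_left, ← tsum_mul_left,
      ← (s1'.mul_left (3 * x)).tsum_add (s1.mul_left (x ^ 2)),
      ← s1''.tsum_sub s0'', ← (s1''.sub s0'').tsum_sub (s0'.mul_left x),
      ← ((s1'.mul_left (3 * x)).add (s1.mul_left (x ^ 2))).tsum_add
        ((s1''.sub s0'').sub (s0'.mul_left x))]
    refine tsum_congr fun i => ?_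
    rw [tt_col_one]
    ring
  have h0 : ∀ ν : ℕ, tt ν 0 0 = ν + 1 := by
    intro ν
    rw [tt_eq]
    norm_num
  have h1 : tt (N + 1) 0 1 = 1 := by
    rw [tt_eq]
    norm_num
  have h2 : tt (N + 1) 1 1 = ((N : ℝ) + 4) * (N + 3) / 2 := by
    rw [tt_eq]
    norm_num
    rw [Nat.cast_choose_two]
    push_cast
    ring
  have h3 : tt (N + 1) 1 0 - tt N 1 0 = ((N : ℝ) + 2) * (N + 1) / 2 := by
    rw [tt_eq, tt_eq]
    norm_num
    rw [show N + 1 + 1 + 1 = (N + 2) + 1 by ring, show N + 1 + 1 = N + 2 by ring,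
      Nat.choose_succ_succ' (N + 2) 2, Nat.cast_add, add_sub_cancel_right, Nat.cast_choose_two]
    push_cast
    ring
  unfold phi
  simp only [pow_zero, mul_one, h0, h1, h2, zero_add, pow_one, add_assoc, one_add_one_eq_two]
    at e0 e1 e2 e0' e1' e2'
  push_cast at e0 e1 e2 e0' e1' e2'
  rw [e3] at e2'
  linear_combination e2 + e2' + x * (e0 - 3 * e1) + (e0 + e0') - (e1 + e1') - x * h3

end Pool.Agent.Helper28.Mrr2
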