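import Pool.Agent.Helper28.Mrr2.Wz

/-!
# The Mills-Robbins-Rumsey determinant: the values
-/

set_option autoImplicit false

namespace Pool.Agent.Helper28.Mrr2

open Finset Filter Topology

/-- The regular factor of the ratio. -/
noncomputable def fa (N : ℕ) (J : ℝ) (k : ℕ) : ℝ :=
  -2 * (N + k + 1) * (2 * N + 2 * J + 2 * k + 1) / ((k + 1) * (2 * N + 2 * J + k + 1))

noncomputable def pA (N : ℕ) (k : ℕ) (J : ℝ) : ℝ := ∏ i ∈ range k, fa N J i

noncomputable def pB (k : ℕ) (J : ℝ) : ℝ := ∏ i ∈ range k, (J - i - 1)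

noncomputable def pC (k : ℕ) (J : ℝ) : ℝ := ∏ i ∈ range k, (2 * J - 2 - i)

/-- The vector. -/
noncomputable def gv (N k : ℕ) (J : ℝ) : ℝ := pA N k J * pB k J / pC k J

lemma gv_zero (N : ℕ) (J : ℝ) : gv N 0 J = 1 := by
  unfold gv pA pB pC
  simp

lemma gv_rel (N : ℕ) (J : ℝ) (hJ0 : 0 < J) (hJ : ∀ k : ℕ, 2 * J - 2 - k ≠ 0) :
    Rel N J fun k => gv N k J := by
  intro k
  have hC : pC k J ≠ 0 := prod_ne_zero_iff.2 fun i _ => hJ i
  have h1 := hJ k
  have h2 : (2 * (N : ℝ) + 2 * J + k + 1) ≠ 0 := by positivity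
  have h3 : ((k : ℝ) + 1) ≠ 0 := by positivity
  show ((k : ℝ) + 1) * (2 * J - 2 - k) * (2 * N + 2 * J + k + 1) * gv N (k + 1) J = _ * gv N k J
  have e1 : gv N (k + 1) J = gv N k J * (fa N J k * (J - k - 1) / (2 * J - 2 - k)) := by
    unfold gv pA pB pC
    rw [prod_range_succ, prod_range_succ, prod_range_succ]
    have : ∏ i ∈ range k, (2 * J - 2 - (i : ℝ)) ≠ 0 := hC
    field_simp
  rw [e1]
  unfold fa
  have h1' : 2 * (J - 1) - (k : ℝ) ≠ 0 := by
    rw [show 2 * (J - 1) - (k : ℝ) = 2 * J - 2 - k by ring]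
    exact h1
  field_simp

lemma gv_one (N : ℕ) (J : ℝ) (hJ0 : 0 < J) (hJ : J ≠ 1) : gv N 1 J = -(N + 1) * gv N 0 J := by
  rw [gv_zero]
  unfold gv pA pB pC fa
  rw [prod_range_one, prod_range_one, prod_range_one]
  have h1 : J - 1 ≠ 0 := sub_ne_zero.2 hJ
  have h2 : (2 * (N : ℝ) + 2 * J + 1) ≠ 0 := by positivity
  have h3 : 2 * J - 2 ≠ 0 := by
    rw [show 2 * J - 2 = 2 * (J - 1) by ring]
    exact mul_ne_zero two_ne_zero h1
  push_cast
  simp only [add_zero, sub_zero, zero_add, mul_zero]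
  field_simp

lemma cont_pA (N k : ℕ) (J0 : ℝ) (hJ0 : 0 < J0) : ContinuousAt (fun J => pA N k J) J0 := by
  unfold pA fa
  refine tendsto_finsetProd _ fun i _ => ?_
  have h2 : ((i : ℝ) + 1) * (2 * (N : ℝ) + 2 * J0 + i + 1) ≠ 0 := by positivity
  exact ContinuousAt.div (by fun_prop) (by fun_prop) h2

lemma cont_pB (k : ℕ) : Continuous fun J => pB k J := by
  unfold pB
  fun_prop

lemma cont_pC (k : ℕ) : Continuous fun J => pC k J := by
  unfold pC
  fun_prop

lemma pC_ne (j k : ℕ) (hk : k ≤ 2 * j) : pC k (j + 1 : ℝ) ≠ 0 := by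
  refine prod_ne_zero_iff.2 fun i hi => ?_
  rw [mem_range] at hi
  have : (i : ℝ) + 1 ≤ 2 * j := by exact_mod_cast (show i + 1 ≤ 2 * j by omega)
  have h2 : (0 : ℝ) < 2 * ((j : ℝ) + 1) - 2 - i := by linarith
  exact h2.ne'

lemma cont_gv (N j k : ℕ) (hk : k ≤ 2 * j) : ContinuousAt (fun J => gv N k J) (j + 1 : ℝ) := by
  unfold gv
  exact ((cont_pA N k _ (by positivity)).mul (cont_pB k).continuousAt).div
    (cont_pC k).continuousAt (pC_ne j k hk)

/-- Near an integer, the other points are generic. -/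
lemma generic (j : ℕ) : ∀ᶠ J : ℝ in 𝓝[≠] (j + 1 : ℝ), 0 < J ∧ (∀ k : ℕ, 2 * J - 2 - k ≠ 0) ∧
    (∀ l : ℕ, (l : ℝ) + 2 - J ≠ 0) ∧ J ≠ 1 := by
  have h1 : ∀ᶠ J : ℝ in 𝓝[≠] (j + 1 : ℝ), J ≠ j + 1 := eventually_mem_nhdsWithin
  have h2 : ∀ᶠ J : ℝ in 𝓝[≠] (j + 1 : ℝ), |J - (j + 1)| < 1 / 2 := by
    apply eventually_nhdsWithin_of_eventually_nhds
    have := (Metric.ball_mem_nhds (j + 1 : ℝ) (by norm_num : (0 : ℝ) < 1 / 2))
    filter_upwards [this] with J hJ
    rw [Metric.mem_ball, Real.dist_eq] at hJ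
    exact hJ
  filter_upwards [h1, h2] with J hJ1 hJ2
  rw [abs_lt] at hJ2
  have hj : (0 : ℝ) ≤ j := by positivity
  -- `2 J` is not an integer
  have key : ∀ z : ℤ, (2 * J : ℝ) ≠ z := by
    intro z hz
    have a1 : (2 * (j : ℝ) + 1) < z := by rw [← hz]; linarith
    have a2 : (z : ℝ) < 2 * j + 3 := by rw [← hz]; linarith
    have a3 : z = 2 * j + 2 := by
      have b1 : (2 * (j : ℤ) + 1) < z := by exact_mod_cast a1
      have b2 : z < 2 * (j : ℤ) + 3 := by exact_mod_cast a2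
      omega
    apply hJ1
    have : (z : ℝ) = 2 * j + 2 := by exact_mod_cast a3
    linarith
  refine ⟨by linarith, fun k hk => key (k + 2) ?_, fun l hl => key (2 * l + 4) ?_, fun h =>
    key 2 ?_⟩
  · push_cast; linarith
  · push_cast; linarith
  · rw [h]; push_cast; norm_num

/-- The sums vanish for `l < J`. -/
lemma sum_lt (N j l : ℕ) (hl : l < j + 1) :
    ∑ k ∈ range (2 * l), bN N l k * gv N k (j + 1 : ℝ) = 0 := by
  have h1 : Tendsto (fun J => ∑ k ∈ range (2 * l), bN N l k * gv N k J) (𝓝[≠] (j + 1 : ℝ))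
      (𝓝 (∑ k ∈ range (2 * l), bN N l k * gv N k (j + 1 : ℝ))) := by
    refine tendsto_finsetSum _ fun k hk => ?_
    rw [mem_range] at hk
    exact ((cont_gv N j k (by omega)).tendsto.mono_left nhdsWithin_le_nhds).const_mul _
  have h2 : Tendsto (fun J => ∑ k ∈ range (2 * l), bN N l k * gv N k J) (𝓝[≠] (j + 1 : ℝ))
      (𝓝 0) := by
    refine Tendsto.congr' ?_ tendsto_const_nhds
    filter_upwards [generic j] with J hJ
    exact (sum_zero N J hJ.2.2.1 hJ.1 _ (gv_rel N J hJ.1 hJ.2.1)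
      (gv_one N J hJ.1 hJ.2.2.2) _ l le_rfl).symm
  exact tendsto_nhds_unique h1 h2

/-- The limit of the last entry. -/
noncomputable def lastE (N j : ℕ) : ℝ :=
  pA N (2 * j + 1) (j + 1 : ℝ) * (pB j (j + 1 : ℝ) * ∏ s ∈ range j, (-((s : ℝ) + 1))) /
    (pC (2 * j) (j + 1 : ℝ) * 2)

lemma tendsto_last (N j : ℕ) :
    Tendsto (fun J => gv N (2 * j + 1) J) (𝓝[≠] (j + 1 : ℝ)) (𝓝 (lastE N j)) := by
  have h1 : Tendsto (fun J : ℝ => pA N (2 * j + 1) J * (pB j J * ∏ s ∈ range j, (J - (j + 1 + s) - 1)) /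
      (pC (2 * j) J * 2)) (𝓝[≠] (j + 1 : ℝ)) (𝓝 (lastE N j)) := by
    have h2 : ContinuousAt (fun J : ℝ => pA N (2 * j + 1) J *
        (pB j J * ∏ s ∈ range j, (J - (j + 1 + s) - 1)) / (pC (2 * j) J * 2)) (j + 1 : ℝ) := by
      refine ContinuousAt.div ((cont_pA N _ _ (by positivity)).mul
        ((cont_pB j).continuousAt.mul ?_)) ((cont_pC _).continuousAt.mul continuousAt_const)
        (mul_ne_zero (pC_ne j _ le_rfl) two_ne_zero)
      fun_prop
    have h3 := h2.tendsto.mono_left (nhdsWithin_le_nhds (s := {(j + 1 : ℝ)}ᶜ))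
    have h4 : pA N (2 * j + 1) (j + 1 : ℝ) * (pB j (j + 1 : ℝ) *
        ∏ s ∈ range j, ((j + 1 : ℝ) - (j + 1 + s) - 1)) / (pC (2 * j) (j + 1 : ℝ) * 2) =
        lastE N j := by
      unfold lastE
      congr 3
      refine prod_congr rfl fun s _ => ?_
      ring
    rw [← h4]
    exact h3
  refine Tendsto.congr' ?_ h1
  have h0 : ∀ᶠ J : ℝ in 𝓝[≠] (j + 1 : ℝ), J ≠ j + 1 := eventually_mem_nhdsWithin
  filter_upwards [h0, generic j] with J hJ hg
  have hC : pC (2 * j) J ≠ 0 := prod_ne_zero_iff.2 fun i _ => hg.2.1 i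
  have h5 : J - (j + 1) ≠ 0 := sub_ne_zero.2 hJ
  unfold gv
  have e1 : pB (2 * j + 1) J = pB j J * (J - (j + 1)) * ∏ s ∈ range j, (J - (j + 1 + s) - 1) := by
    unfold pB
    rw [show 2 * j + 1 = (j + 1) + j by ring, prod_range_add, prod_range_succ]
    congr 1
    · ring
    · refine prod_congr rfl fun s _ => ?_
      push_cast; ring
  have e2 : pC (2 * j + 1) J = pC (2 * j) J * (2 * (J - (j + 1))) := by
    unfold pC
    rw [prod_range_succ]
    push_cast; ring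
  rw [e1, e2]
  field_simp

/-- The value of the sum at `l = J`. -/
lemma sum_eq (N j : ℕ) :
    ∑ k ∈ range (2 * j + 1), bN N (j + 1) k * gv N k (j + 1 : ℝ) = -lastE N j := by
  have hlast : bN N (j + 1) (2 * j + 1) = 1 := by
    unfold bN
    rw [if_pos (by omega), show 2 * (j + 1) - 1 - (2 * j + 1) = 0 by omega, Nat.choose_zero_right]
    norm_num
  have h1 : Tendsto (fun J => ∑ k ∈ range (2 * j + 1 + 1), bN N (j + 1) k * gv N k J)
      (𝓝[≠] (j + 1 : ℝ))
      (𝓝 (∑ k ∈ range (2 * j + 1), bN N (j + 1) k * gv N k (j + 1 : ℝ) + lastE N j)) := by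
    simp_rw [sum_range_succ _ (2 * j + 1), hlast, one_mul]
    refine Tendsto.add ?_ (tendsto_last N j)
    refine tendsto_finsetSum _ fun k hk => ?_
    rw [mem_range] at hk
    exact ((cont_gv N j k (by omega)).tendsto.mono_left nhdsWithin_le_nhds).const_mul _
  have h2 : Tendsto (fun J => ∑ k ∈ range (2 * j + 1 + 1), bN N (j + 1) k * gv N k J)
      (𝓝[≠] (j + 1 : ℝ)) (𝓝 0) := by
    refine Tendsto.congr' ?_ tendsto_const_nhds
    filter_upwards [generic j] with J hJ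
    exact (sum_zero N J hJ.2.2.1 hJ.1 _ (gv_rel N J hJ.1 hJ.2.1)
      (gv_one N J hJ.1 hJ.2.2.2) _ (j + 1) (by omega)).symm
  have h3 := tendsto_nhds_unique h1 h2
  linarith

/-- The factors of the determinant. -/
noncomputable def rr (N : ℕ) : ℕ → ℝ
  | 0 => 1
  | j + 1 => 1 / 2 * ∏ s ∈ range (j + 1), (2 * ((N : ℝ) + j + s + 1) * (2 * N + 4 * j + 2 * s + 3) /
      ((j + s + 1) * (2 * N + 3 * j + s + 3)))

lemma gv_top_ne (N j : ℕ) : gv N j (j + 1 : ℝ) ≠ 0 := by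
  unfold gv
  refine div_ne_zero (mul_ne_zero ?_ ?_) (pC_ne j j (by omega))
  · refine prod_ne_zero_iff.2 fun i _ => ?_
    unfold fa
    refine div_ne_zero (mul_ne_zero (mul_ne_zero (by norm_num) (by positivity)) (by positivity))
      (by positivity)
  · refine prod_ne_zero_iff.2 fun i hi => ?_
    rw [mem_range] at hi
    have : (i : ℝ) + 1 ≤ j := by exact_mod_cast hi
    have h2 : (0 : ℝ) < ((j : ℝ) + 1) - i - 1 := by linarith
    exact h2.ne'

lemma gv_eq_zero (N j k : ℕ) (hk : j < k) : gv N k (j + 1 : ℝ) = 0 := by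
  unfold gv pB
  rw [prod_eq_zero (mem_range.2 hk) (by ring), mul_zero, zero_div]

lemma last_eq (N j : ℕ) : -lastE N j = rr N (j + 1) * gv N j (j + 1 : ℝ) := by
  have e1 : pA N (2 * j + 1) (j + 1 : ℝ) =
      pA N j (j + 1 : ℝ) * ∏ s ∈ range (j + 1), fa N (j + 1 : ℝ) (j + s) := by
    unfold pA
    rw [show 2 * j + 1 = j + (j + 1) by ring, prod_range_add]
  have e2 : pC (2 * j) (j + 1 : ℝ) = pC j (j + 1 : ℝ) * ∏ s ∈ range j, ((s : ℝ) + 1) := by
    unfold pC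
    rw [show 2 * j = j + j by ring, prod_range_add]
    congr 1
    rw [← prod_range_reflect]
    refine prod_congr rfl fun s hs => ?_
    rw [mem_range] at hs
    have : ((j - 1 - s : ℕ) : ℝ) = j - 1 - s := by
      rw [Nat.cast_sub (by omega), Nat.cast_sub (by omega)]
      norm_num
    push_cast
    rw [this]
    ring
  have e3 : ∏ s ∈ range j, (-((s : ℝ) + 1)) = (-1) ^ j * ∏ s ∈ range j, ((s : ℝ) + 1) := by
    rw [prod_congr rfl fun (s : ℕ) _ => (show (-((s : ℝ) + 1)) = (-1) * ((s : ℝ) + 1) by ring),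
      prod_mul_distrib, prod_const, card_range]
  have e4 : ∏ s ∈ range (j + 1), fa N (j + 1 : ℝ) (j + s) = (-1) ^ (j + 1) *
      ∏ s ∈ range (j + 1), (2 * ((N : ℝ) + j + s + 1) * (2 * N + 4 * j + 2 * s + 3) /
      ((j + s + 1) * (2 * N + 3 * j + s + 3))) := by
    rw [← card_range (j + 1), ← prod_const, card_range, ← prod_mul_distrib]
    refine prod_congr rfl fun s _ => ?_
    unfold fa
    push_cast
    rw [show (2 * (N : ℝ) + 2 * (j + 1) + (j + s) + 1) = 2 * N + 3 * j + s + 3 by ring]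
    have h1 : (2 * (N : ℝ) + 3 * j + s + 3) ≠ 0 := by positivity
    have h2 : ((j : ℝ) + s + 1) ≠ 0 := by positivity
    field_simp
    ring
  have hf : ∏ s ∈ range j, ((s : ℝ) + 1) ≠ 0 := prod_ne_zero_iff.2 fun s _ => by positivity
  have hc := pC_ne j j (by omega)
  have hs : ((-1 : ℝ)) ^ (j + 1) * (-1) ^ j = -1 := by
    rw [← pow_add, show j + 1 + j = 2 * j + 1 by ring, pow_succ, pow_mul]
    norm_num
  unfold lastE rr gv
  rw [e1, e2, e3, e4]
  field_simp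
  linear_combination (-(pA N j (j + 1 : ℝ)) * pB j (j + 1 : ℝ)) * hs

end Pool.Agent.Helper28.Mrr2
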