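import Mathlib

/-!
# The Mills-Robbins-Rumsey determinant: the recurrence (general form, `μ = N - 1`, `N ≥ 0`)

For a sequence `g` with the two-term relation `Rel N J g` (the Petkovsek-Wilf vector), the sums
`S l = ∑ k, C(N + l + k, 2 l - 1 - k) g k` satisfy a second order recurrence in `l`; for
non-integer `J` they vanish.
-/

set_option autoImplicit false

namespace Pool.Agent.Helper28.Mrr2

open Finset

/-- The inverse factorial on the integers. -/
noncomputable def rf (n : ℤ) : ℝ := if 0 ≤ n then ((n.toNat.factorial : ℕ) : ℝ)⁻¹ else 0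

lemma rf_neg {n : ℤ} (h : n < 0) : rf n = 0 := if_neg (by omega)

lemma rf_natCast (n : ℕ) : rf n = ((n.factorial : ℕ) : ℝ)⁻¹ := by
  unfold rf
  rw [if_pos (by omega), Int.toNat_natCast]

lemma rf_pred (n : ℤ) : rf (n - 1) = n * rf n := by
  rcases lt_trichotomy n 0 with h | h | h
  · rw [rf_neg h, rf_neg (by omega)]; ring
  · subst h; rw [rf_neg (by omega)]; simp
  · obtain ⟨m, rfl⟩ : ∃ m : ℕ, n = m + 1 := ⟨(n - 1).toNat, by omega⟩
    rw [add_sub_cancel_right, rf_natCast, show (m : ℤ) + 1 = ((m + 1 : ℕ) : ℤ) by push_cast; ring,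
      rf_natCast, Nat.factorial_succ]
    have : ((m.factorial : ℕ) : ℝ) ≠ 0 := by exact_mod_cast m.factorial_ne_zero
    push_cast
    field_simp

/-- The entry `C(N + i + k, 2 i - 1 - k)`. -/
noncomputable def bN (N i k : ℕ) : ℝ :=
  if k + 1 ≤ 2 * i then ((N + i + k).choose (2 * i - 1 - k) : ℝ) else 0

lemma bN_eq (N i k : ℕ) : bN N i k =
    ((N + i + k).factorial : ℝ) * rf (2 * i - 1 - k) * rf (N + 1 - i + 2 * k) := by
  unfold bN
  split_ifs with h
  · rw [show (2 * (i : ℤ) - 1 - k) = ((2 * i - 1 - k : ℕ) : ℤ) by omega, rf_natCast]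
    by_cases h2 : i ≤ N + 1 + 2 * k
    · rw [show ((N : ℤ) + 1 - i + 2 * k) = ((N + 1 + 2 * k - i : ℕ) : ℤ) by omega,
        rf_natCast, Nat.cast_choose ℝ (show 2 * i - 1 - k ≤ N + i + k by omega),
        show N + i + k - (2 * i - 1 - k) = N + 1 + 2 * k - i by omega]
      field_simp
    · rw [rf_neg (by omega), Nat.choose_eq_zero_of_lt (by omega)]
      simp
  · rw [rf_neg (by omega)]; simp

/-- The two-term relation of the vector. -/
def Rel (N : ℕ) (J : ℝ) (g : ℕ → ℝ) : Prop := ∀ k : ℕ,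
  ((k : ℝ) + 1) * (2 * J - 2 - k) * (2 * N + 2 * J + k + 1) * g (k + 1) =
    -2 * (N + k + 1) * (2 * N + 2 * J + 2 * k + 1) * (J - k - 1) * g k

/-- The coefficients of the recurrence. -/
noncomputable def c0 (μ l J : ℝ) : ℝ := (l + μ + 2) * (l - 2 * J - μ) * (l + 2 * J + μ + 1)

noncomputable def c1 (μ l J : ℝ) : ℝ :=
  8 * l ^ 3 + 8 * l ^ 2 * μ + 36 * l ^ 2 - 20 * l * J ^ 2 - 20 * l * J * μ - 10 * l * J
    - 4 * l * μ ^ 2 + 14 * l * μ + 52 * l - 16 * J ^ 2 * μ - 44 * J ^ 2 - 16 * J * μ ^ 2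
    - 52 * J * μ - 22 * J - 4 * μ ^ 3 - 14 * μ ^ 2 + 24

noncomputable def c2 (μ l J : ℝ) : ℝ := 4 * (2 * l + 3) * (l + 2 - J) * (2 * l + 2 * μ + 2 * J + 5)

/-- The base term. -/
noncomputable def base (N l k : ℕ) : ℝ :=
  ((N + l + k).factorial : ℝ) * rf (2 * l + 3 - k) * rf (N + 1 - l + 2 * k)

/-- The certificate. -/
noncomputable def cert (N l : ℕ) (J : ℝ) (g : ℕ → ℝ) (k : ℕ) : ℝ :=
  (6 * l * (N - 1) - 2 * l + 2 * (N - 1) ^ 2 + 10 * (N - 1) - 4 +
    (9 * l + 3 * (N - 1) + 16) * (k + 1)) * k *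
    (2 * J - (k + 1)) * (2 * N + 2 * J + k) * (N - l + 2 * k) *
    (N - l + 2 * k + 1) * base N l k * g k

lemma step (N l : ℕ) (J : ℝ) (g : ℕ → ℝ) (hg : Rel N J g) (k : ℕ) :
    c0 (N - 1) l J * (bN N l k * g k) + c1 (N - 1) l J * (bN N (l + 1) k * g k) +
      c2 (N - 1) l J * (bN N (l + 2) k * g k) = cert N l J g (k + 1) - cert N l J g k := by
  set a : ℝ := ((N + l + k).factorial : ℝ) with ha
  set u : ℝ := rf (2 * l + 3 - k) with hu
  set v : ℝ := rf (N + 1 - l + 2 * k) with hv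
  -- the shifted inverse factorials
  have e3 : rf (2 * l + 3 - k - 1) = (2 * l + 3 - k) * u := by
    rw [rf_pred, hu]; push_cast; ring
  have e2 : rf (2 * l + 3 - k - 2) = (2 * l + 2 - k) * ((2 * l + 3 - k) * u) := by
    rw [show (2 * (l : ℤ) + 3 - k - 2) = (2 * l + 3 - k - 1) - 1 by ring,
      rf_pred, e3]; push_cast; ring
  have e1 : rf (2 * l + 3 - k - 3) =
      (2 * l + 1 - k) * ((2 * l + 2 - k) * ((2 * l + 3 - k) * u)) := by
    rw [show (2 * (l : ℤ) + 3 - k - 3) = (2 * l + 3 - k - 2) - 1 by ring,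
      rf_pred, e2]; push_cast; ring
  have e0 : rf (2 * l + 3 - k - 4) =
      (2 * l - k) * ((2 * l + 1 - k) * ((2 * l + 2 - k) * ((2 * l + 3 - k) * u))) := by
    rw [show (2 * (l : ℤ) + 3 - k - 4) = (2 * l + 3 - k - 3) - 1 by ring,
      rf_pred, e1]; push_cast; ring
  have f1 : rf (N + 1 - l + 2 * k - 1) = (N - l + 2 * k + 1) * v := by
    rw [rf_pred, hv]; push_cast; ring
  have f2 : rf (N + 1 - l + 2 * k - 2) = (N - l + 2 * k) * ((N - l + 2 * k + 1) * v) := by
    rw [show ((N : ℤ) + 1 - l + 2 * k - 2) = (N + 1 - l + 2 * k - 1) - 1 by ring,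
      rf_pred, f1]; push_cast; ring
  have f3 : v = (N - l + 2 * k + 2) * ((N - l + 2 * k + 3) * rf (N + 1 - l + 2 * (k + 1 : ℕ))) := by
    rw [hv, show ((N : ℤ) + 1 - l + 2 * k) = (N + 1 - l + 2 * (k + 1 : ℕ) - 1) - 1 by
      push_cast; ring, rf_pred, rf_pred]
    push_cast
    ring
  have F0 : bN N l k =
      a * ((2 * l - k) * ((2 * l + 1 - k) * ((2 * l + 2 - k) * ((2 * l + 3 - k) * u)))) * v := by
    rw [bN_eq, ← e0, ha, hv]
    congr 3
    ring
  have F1 : bN N (l + 1) k = ((N + l + k + 1) * a) *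
      ((2 * l + 2 - k) * ((2 * l + 3 - k) * u)) * ((N - l + 2 * k + 1) * v) := by
    rw [bN_eq, ← e2, ← f1, show N + (l + 1) + k = (N + l + k) + 1 by ring,
      Nat.factorial_succ, ha]
    congr 1
    · congr 1
      · push_cast; ring
      · congr 1; push_cast; ring
    · congr 1; push_cast; ring
  have F2 : bN N (l + 2) k = ((N + l + k + 2) * ((N + l + k + 1) * a)) * u *
      ((N - l + 2 * k) * ((N - l + 2 * k + 1) * v)) := by
    rw [bN_eq, ← f2, hu, show N + (l + 2) + k = (N + l + k) + 1 + 1 by ring,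
      Nat.factorial_succ, Nat.factorial_succ, ha]
    congr 1
    · congr 1
      · push_cast; ring
      · congr 1; push_cast; ring
    · congr 1; push_cast; ring
  have C0 : cert N l J g k = (6 * l * (N - 1) - 2 * l + 2 * (N - 1) ^ 2 + 10 * (N - 1) - 4 +
      (9 * l + 3 * (N - 1) + 16) * (k + 1)) * k *
    (2 * J - (k + 1)) * (2 * N + 2 * J + k) * (N - l + 2 * k) *
    (N - l + 2 * k + 1) * (a * u * v) * g k := rfl
  have C1 : cert N l J g (k + 1) = (6 * l * (N - 1) - 2 * l + 2 * (N - 1) ^ 2 + 10 * (N - 1) - 4 +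
      (9 * l + 3 * (N - 1) + 16) * (k + 2)) * ((N + l + k + 1) * a) * ((2 * l + 3 - k) * u) * v *
      (((k : ℝ) + 1) * (2 * J - 2 - k) * (2 * N + 2 * J + k + 1) * g (k + 1)) := by
    unfold cert base
    rw [show N + l + (k + 1) = (N + l + k) + 1 by ring, Nat.factorial_succ,
      show (2 * (l : ℤ) + 3 - (k + 1 : ℕ)) = 2 * l + 3 - k - 1 by push_cast; ring,
      e3]
    push_cast
    rw [ha] at *
    set w := rf (N + 1 - l + 2 * (k + 1 : ℕ)) with hw
    have hw' : rf ((N : ℤ) + 1 - l + 2 * ((k : ℤ) + 1)) = w := by rw [hw]; push_cast; rfl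
    rw [hw', f3]
    ring
  rw [C1, hg k, C0, F0, F1, F2]
  unfold c0 c1 c2
  ring

/-- The recurrence of the sums. -/
lemma sum_rec (N l : ℕ) (J : ℝ) (g : ℕ → ℝ) (hg : Rel N J g) (n : ℕ) (hn : 2 * l + 4 ≤ n) :
    c0 (N - 1) l J * ∑ k ∈ range n, bN N l k * g k +
      c1 (N - 1) l J * ∑ k ∈ range n, bN N (l + 1) k * g k +
      c2 (N - 1) l J * ∑ k ∈ range n, bN N (l + 2) k * g k = 0 := by
  rw [mul_sum, mul_sum, mul_sum, ← sum_add_distrib, ← sum_add_distrib,
    sum_congr rfl fun k _ => step N l J g hg k, sum_range_sub]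
  have h1 : cert N l J g 0 = 0 := by unfold cert; push_cast; ring
  have h2 : cert N l J g n = 0 := by
    unfold cert base
    rw [show rf (2 * l + 3 - n) = 0 from rf_neg (by omega)]
    ring
  rw [h1, h2, sub_zero]

/-- The sums vanish when `J` is not an integer. -/
lemma sum_zero (N : ℕ) (J : ℝ) (hJ : ∀ l : ℕ, (l : ℝ) + 2 - J ≠ 0) (hJ0 : 0 < J) (g : ℕ → ℝ)
    (hg : Rel N J g) (h01 : g 1 = -(N + 1) * g 0) (n : ℕ) :
    ∀ l : ℕ, 2 * l ≤ n → ∑ k ∈ range n, bN N l k * g k = 0 := by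
  intro l
  induction l using Nat.strong_induction_on with
  | _ l ih =>
    intro hl
    match l, ih, hl with
    | 0, _, _ =>
      refine sum_eq_zero fun k _ => ?_
      unfold bN
      rw [if_neg (by omega), zero_mul]
    | 1, _, hl =>
      have : range n = range 2 ∪ Ico 2 n := by
        ext k; simp only [mem_range, mem_union, mem_Ico]; omega
      rw [this, sum_union (by
        rw [disjoint_left]; intro k; simp only [mem_range, mem_Ico]; omega),
        sum_eq_zero (s := Ico 2 n) (fun k hk => by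
          rw [mem_Ico] at hk
          unfold bN
          rw [if_neg (by omega), zero_mul])]
      rw [sum_range_succ, sum_range_one, h01]
      unfold bN
      norm_num
      ring
    | l + 2, ih, hl =>
      have h1 := sum_rec N l J g hg n (by omega)
      rw [ih l (by omega) (by omega), ih (l + 1) (by omega) (by omega)] at h1
      have h2 : c2 (N - 1) l J ≠ 0 := by
        unfold c2
        have h3 := hJ l
        have h4 : (2 * (l : ℝ) + 2 * (N - 1) + 2 * J + 5) ≠ 0 := by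
          have : (0 : ℝ) < 2 * (l : ℝ) + 2 * N + 2 * J + 3 := by positivity
          intro h
          linarith
        have h5 : (2 * (l : ℝ) + 3) ≠ 0 := by positivity
        exact mul_ne_zero (mul_ne_zero (mul_ne_zero (by norm_num) h5) h3) h4
      rw [mul_zero, mul_zero, zero_add, zero_add] at h1
      exact (mul_eq_zero.1 h1).resolve_left h2

end Pool.Agent.Helper28.Mrr2
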